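import Pool.Agent.H93.ER2.GNR

/-!
# MP_816b90_co: row GNC (normal forms, corner type)
-/

set_option autoImplicit false

namespace Pool.Agent.H93.ER2

open Pool.Agent.H48.ER Pool.Agent.H52.ER2 Pool.Agent.H66.ER2

theorem pf_GNC (hFAB : T_FAB) (hOGE : T_OGE) : T_GNC := by
  intro V G v k z l r n m a1 x b1 y a2 b2 a3 b3 L R P Q hg hl _
  have h := hg.sp
  have hl2 := hl
  subst hl
  obtain ⟨_, _, cA, cB, -, -⟩ := hFAB V G v k z hg.cls.noh hg.f1 hg.so
  obtain ⟨ex, hL⟩ := h.ipL.eq_of_zero
  have hoLR := h.oLR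
  have hoP := h.oP
  have hoQ := h.oQ
  have hr : 1 ≤ r := by rw [Nat.odd_iff] at hoLR; omega
  obtain ⟨y', hyu, huR, hipu, hnu⟩ := nby h hr
  have ha1 : a1 ∈ sA G v k z := ex ▸ hg.hx
  have hxL := h.x_mem
  have hyR := h.y_mem
  have sR : R \ {y} ⊆ R := Set.sdiff_subset
  have hA : ∀ w ∈ vS L R P Q, w ∈ sA G v k z → w = a1 ∨ w = a2 ∨ w = a3 := by
    intro w hw hwA
    by_cases hne : w = a1
    · exact Or.inl hne
    · have e := cA a1 ha1 w hwA (Ne.symm hne)
      rcases mem_vS_cases hw with hw | hw | hw | hw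
      · rw [hL] at hw; exact Or.inl hw
      · exact absurd e (h.eLR a1 h.a1_mem w hw)
      · exact Or.inr (Or.inl ((h.eLP a1 h.a1_mem w hw).1 e).2)
      · exact Or.inr (Or.inr ((h.eLQ a1 h.a1_mem w hw).1 e).2)
  have hB : ∀ w ∈ vS L R P Q, w ∈ sB G v k z → w ≠ y → w = y' := by
    intro w hw hwB hne
    exact hnu w hw (cB y hg.hy w hwB (Ne.symm hne))
  have n23 : a2 ≠ a3 := fun e => Set.disjoint_left.1 h.dPQ h.a2_mem (e ▸ h.a3_mem)
  have a2R : a2 ∉ R := fun e => Set.disjoint_left.1 h.dRP e h.a2_mem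
  have a3R : a3 ∉ R := fun e => Set.disjoint_left.1 h.dRQ e h.a3_mem
  have a1R : a1 ∉ R := fun e => Set.disjoint_left.1 h.dLR h.a1_mem e
  have a1P : a1 ∉ P := fun e => Set.disjoint_left.1 h.dLP h.a1_mem e
  have a1Q : a1 ∉ Q := fun e => Set.disjoint_left.1 h.dLQ h.a1_mem e
  have a3P : a3 ∉ P := fun e => Set.disjoint_left.1 h.dPQ e h.a3_mem
  have a2Q : a2 ∉ Q := fun e => Set.disjoint_left.1 h.dPQ h.a2_mem e
  by_cases h2 : y' ∈ sB G v k z
  · right
    -- `onB` on subsets without `y`
    have hBy : ∀ w ∈ vS L R P Q, w ∈ sB G v k z → w ∉ R ∨ w ∈ R \ {y} → w = y' := by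
      intro w hw hwB hc
      refine hB w hw hwB (fun e => ?_)
      rcases hc with hc | hc
      · exact hc (e ▸ hyR)
      · exact hc.2 e
    have m2 : a2 ∈ sA G v k z := by
      by_contra hn
      have hp := SPr.thru h (subset_refl L) sR h.ipL hipu
      have hev := hOGE V G v k z _ _ _ _ hg.cls hg.nco hg.f1 hg.so
        ⟨hp, hg.hx, h2, ?_, ?_⟩
      · rw [Nat.odd_iff] at hoLR hoP
        rw [Nat.even_iff] at hev
        omega
      · rintro w ((hv | hv) | hv) hwA
        · rw [hL] at hv; rw [← ex]; exact hv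
        · exfalso
          rcases hA w (memP hv) hwA with e | e | e
          · exact a1P (e ▸ hv)
          · exact hn (e ▸ hwA)
          · exact a3P (e ▸ hv)
        · exfalso
          rcases hA w (memR (sR hv)) hwA with e | e | e
          · exact a1R (e ▸ (sR hv))
          · exact a2R (e ▸ (sR hv))
          · exact a3R (e ▸ (sR hv))
      · rintro w ((hv | hv) | hv) hwB
        · exact hBy w (memL hv) hwB (Or.inl (fun e => Set.disjoint_left.1 h.dLR hv e))
        · exact hBy w (memP hv) hwB (Or.inl (fun e => Set.disjoint_left.1 h.dRP e hv))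
        · exact hBy w (memR (sR hv)) hwB (Or.inr hv)
    have m3 : a3 ∈ sA G v k z := by
      by_contra hn
      have hp := SPr.thru' h (subset_refl L) sR h.ipL hipu
      have hev := hOGE V G v k z _ _ _ _ hg.cls hg.nco hg.f1 hg.so
        ⟨hp, hg.hx, h2, ?_, ?_⟩
      · rw [Nat.odd_iff] at hoLR hoQ
        rw [Nat.even_iff] at hev
        omega
      · rintro w ((hv | hv) | hv) hwA
        · rw [hL] at hv; rw [← ex]; exact hv
        · exfalso
          rcases hA w (memQ hv) hwA with e | e | e
          · exact a1Q (e ▸ hv)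
          · exact a2Q (e ▸ hv)
          · exact hn (e ▸ hwA)
        · exfalso
          rcases hA w (memR (sR hv)) hwA with e | e | e
          · exact a1R (e ▸ (sR hv))
          · exact a2R (e ▸ (sR hv))
          · exact a3R (e ▸ (sR hv))
      · rintro w ((hv | hv) | hv) hwB
        · exact hBy w (memL hv) hwB (Or.inl (fun e => Set.disjoint_left.1 h.dLR hv e))
        · exact hBy w (memQ hv) hwB (Or.inl (fun e => Set.disjoint_left.1 h.dRQ e hv))
        · exact hBy w (memR (sR hv)) hwB (Or.inr hv)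
    refine ⟨y', R \ {y}, hg, rfl, m2, m3, h2, hipu, ?_, fun e => e.2 rfl, hA, ?_⟩
    · rw [Set.insert_sdiff_singleton, Set.insert_eq_of_mem hyR]
    · intro w hw hwB
      by_cases e : w = y
      · exact Or.inl e
      · exact Or.inr (hB w hw hwB e)
  · left
    have oB : ∀ w ∈ vS L R P Q, w ∈ sB G v k z → w = y := by
      intro w hw hwB
      by_contra hne
      exact h2 (hB w hw hwB hne ▸ hwB)
    have m2 : a2 ∉ sA G v k z := by
      intro hn
      have hp : IP G (n + r + 1) a2 y (P ∪ R) := by
        refine h.ipP.append h.ipR h.dRP.symm ?_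
        intro a ha b hb
        rw [SimpleGraph.adj_comm, h.eRP b hb a ha]
        exact And.comm
      have hev := hOGE V G v k z _ _ _ _ hg.cls hg.nco hg.f1 hg.so
        ⟨hp, hn, hg.hy, ?_, ?_⟩
      · rw [Nat.odd_iff] at hoLR hoP
        rw [Nat.even_iff] at hev
        omega
      · rintro w (hv | hv) hwA
        · rcases hA w (memP hv) hwA with e | e | e
          · exact absurd (e ▸ hv) a1P
          · exact e
          · exact absurd (e ▸ hv) a3P
        · exfalso
          rcases hA w (memR hv) hwA with e | e | e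
          · exact a1R (e ▸ hv)
          · exact a2R (e ▸ hv)
          · exact a3R (e ▸ hv)
      · rintro w (hv | hv) hwB
        · exact oB w (memP hv) hwB
        · exact oB w (memR hv) hwB
    have m3 : a3 ∉ sA G v k z := by
      intro hn
      have hp : IP G (m + r + 1) a3 y (Q ∪ R) := by
        refine h.ipQ.append h.ipR h.dRQ.symm ?_
        intro a ha b hb
        rw [SimpleGraph.adj_comm, h.eRQ b hb a ha]
        exact And.comm
      have hev := hOGE V G v k z _ _ _ _ hg.cls hg.nco hg.f1 hg.so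
        ⟨hp, hn, hg.hy, ?_, ?_⟩
      · rw [Nat.odd_iff] at hoLR hoQ
        rw [Nat.even_iff] at hev
        omega
      · rintro w (hv | hv) hwA
        · rcases hA w (memQ hv) hwA with e | e | e
          · exact absurd (e ▸ hv) a1Q
          · exact absurd (e ▸ hv) a2Q
          · exact e
        · exfalso
          rcases hA w (memR hv) hwA with e | e | e
          · exact a1R (e ▸ hv)
          · exact a2R (e ▸ hv)
          · exact a3R (e ▸ hv)
      · rintro w (hv | hv) hwB
        · exact oB w (memQ hv) hwB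
        · exact oB w (memR hv) hwB
    refine ⟨?_, oB⟩
    intro w hw hwA
    rcases hA w hw hwA with e | e | e
    · exact e.trans ex
    · exact absurd (e ▸ hwA) m2
    · exact absurd (e ▸ hwA) m3

end Pool.Agent.H93.ER2
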