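import Pool.Agent.H66.ER2.Lib

/-!
# MP_816b90_co: row GNR (normal forms, interior type)
-/

set_option autoImplicit false

namespace Pool.Agent.H93.ER2

open Pool.Agent.H48.ER Pool.Agent.H52.ER2 Pool.Agent.H66.ER2

variable {V : Type} {G : SimpleGraph V}

/-- restriction of the two split paths of a split prism -/
theorem SPr.restrict {l r n m l' r' : ℕ} {a1 x b1 y a2 b2 a3 b3 x' y' : V}
    {L R P Q L' R' : Set V}
    (h : SPr G l r n m a1 x b1 y a2 b2 a3 b3 L R P Q) (hL : L' ⊆ L) (hR : R' ⊆ R)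
    (h1 : IP G l' a1 x' L') (h2 : IP G r' b1 y' R') (ho : Odd (l' + r')) :
    SPr G l' r' n m a1 x' b1 y' a2 b2 a3 b3 L' R' P Q where
  ipL := h1
  ipR := h2
  ipP := h.ipP
  ipQ := h.ipQ
  oLR := ho
  oP := h.oP
  oQ := h.oQ
  dLR := Set.disjoint_of_subset hL hR h.dLR
  dLP := Set.disjoint_of_subset_left hL h.dLP
  dLQ := Set.disjoint_of_subset_left hL h.dLQ
  dRP := Set.disjoint_of_subset_left hR h.dRP
  dRQ := Set.disjoint_of_subset_left hR h.dRQ
  dPQ := h.dPQ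
  eLR u hu w hw := h.eLR u (hL hu) w (hR hw)
  eLP u hu w hw := h.eLP u (hL hu) w hw
  eLQ u hu w hw := h.eLQ u (hL hu) w hw
  eRP u hu w hw := h.eRP u (hR hu) w hw
  eRQ u hu w hw := h.eRQ u (hR hu) w hw
  ePQ := h.ePQ

/-- the path through `P` -/
theorem SPr.thru {l r n m l' r' : ℕ} {a1 x b1 y a2 b2 a3 b3 x' y' : V}
    {L R P Q L' R' : Set V}
    (h : SPr G l r n m a1 x b1 y a2 b2 a3 b3 L R P Q) (hL : L' ⊆ L) (hR : R' ⊆ R)
    (h1 : IP G l' a1 x' L') (h2 : IP G r' b1 y' R') :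
    IP G (l' + n + 1 + r' + 1) x' y' (L' ∪ P ∪ R') := by
  refine ((h1.rev).append h.ipP (Set.disjoint_of_subset_left hL h.dLP)
    (fun u hu w hw => h.eLP u (hL hu) w hw)).append h2 ?_ ?_
  · rw [Set.disjoint_union_left]
    exact ⟨Set.disjoint_of_subset hL hR h.dLR, (Set.disjoint_of_subset_left hR h.dRP).symm⟩
  · rintro u (hu | hu) w hw
    · constructor
      · intro e
        exact absurd e (h.eLR u (hL hu) w (hR hw))
      · rintro ⟨e1, e2⟩
        exact absurd (e1 ▸ hu) (fun hh => Set.disjoint_left.1 h.dLP (hL hh) h.b2_mem)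
    · rw [SimpleGraph.adj_comm, h.eRP w (hR hw) u hu]
      exact And.comm

/-- the path through `Q` -/
theorem SPr.thru' {l r n m l' r' : ℕ} {a1 x b1 y a2 b2 a3 b3 x' y' : V}
    {L R P Q L' R' : Set V}
    (h : SPr G l r n m a1 x b1 y a2 b2 a3 b3 L R P Q) (hL : L' ⊆ L) (hR : R' ⊆ R)
    (h1 : IP G l' a1 x' L') (h2 : IP G r' b1 y' R') :
    IP G (l' + m + 1 + r' + 1) x' y' (L' ∪ Q ∪ R') := SPr.thru h.swap hL hR h1 h2

theorem mem_vS_cases {L R P Q : Set V} {w : V} (h : w ∈ vS L R P Q) :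
    w ∈ L ∨ w ∈ R ∨ w ∈ P ∨ w ∈ Q := by
  rcases h with ((h | h) | h) | h
  · exact Or.inl h
  · exact Or.inr (Or.inl h)
  · exact Or.inr (Or.inr (Or.inl h))
  · exact Or.inr (Or.inr (Or.inr h))

theorem memL {L R P Q : Set V} {w : V} (h : w ∈ L) : w ∈ vS L R P Q :=
  Or.inl (Or.inl (Or.inl h))
theorem memR {L R P Q : Set V} {w : V} (h : w ∈ R) : w ∈ vS L R P Q :=
  Or.inl (Or.inl (Or.inr h))
theorem memP {L R P Q : Set V} {w : V} (h : w ∈ P) : w ∈ vS L R P Q :=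
  Or.inl (Or.inr h)
theorem memQ {L R P Q : Set V} {w : V} (h : w ∈ Q) : w ∈ vS L R P Q :=
  Or.inr h

/-- a neighbour of `x` in the split prism (`1 ≤ l`) -/
theorem nbx {l r n m : ℕ} {a1 x b1 y a2 b2 a3 b3 : V} {L R P Q : Set V}
    (h : SPr G l r n m a1 x b1 y a2 b2 a3 b3 L R P Q) (hl : 1 ≤ l) :
    ∃ u, G.Adj x u ∧ u ∈ L ∧ IP G (l - 1) a1 u (L \ {x}) ∧
      ∀ w ∈ vS L R P Q, G.Adj x w → w = u := by
  have hx : x ≠ a1 := fun e => h.ipL.ne hl e.symm
  have h0 := h.ipL.rev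
  rw [show l = (l - 1) + 1 by omega] at h0
  obtain ⟨u, hu, huL, hip, hnb⟩ := h0.tail
  refine ⟨u, hu, huL, hip.rev, ?_⟩
  intro w hw e
  rcases mem_vS_cases hw with hw | hw | hw | hw
  · exact hnb w hw e
  · exact absurd e (h.eLR x h.x_mem w hw)
  · exact absurd ((h.eLP x h.x_mem w hw).1 e).1 hx
  · exact absurd ((h.eLQ x h.x_mem w hw).1 e).1 hx

theorem nby {l r n m : ℕ} {a1 x b1 y a2 b2 a3 b3 : V} {L R P Q : Set V}
    (h : SPr G l r n m a1 x b1 y a2 b2 a3 b3 L R P Q) (hr : 1 ≤ r) :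
    ∃ u, G.Adj y u ∧ u ∈ R ∧ IP G (r - 1) b1 u (R \ {y}) ∧
      ∀ w ∈ vS L R P Q, G.Adj y w → w = u := by
  obtain ⟨u, h1, h2, h3, h4⟩ := nbx h.flip hr
  exact ⟨u, h1, h2, h3, fun w hw => h4 w (by rw [vS_flip]; exact hw)⟩

theorem pf_GNR (hFAB : T_FAB) (hOGE : T_OGE) : T_GNR := by
  intro V G v k z l r n m a1 x b1 y a2 b2 a3 b3 L R P Q hg hl hr _
  have h := hg.sp
  obtain ⟨_, _, cA, cB, -, -⟩ := hFAB V G v k z hg.cls.noh hg.f1 hg.so
  obtain ⟨u, hxu, huL, hipu, hnu⟩ := nbx h hl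
  obtain ⟨u', hyu, huR, hipu', hnu'⟩ := nby h hr
  have hA : ∀ w ∈ vS L R P Q, w ∈ sA G v k z → w ≠ x → w = u := by
    intro w hw hwA hne
    exact hnu w hw (cA x hg.hx w hwA (Ne.symm hne))
  have hB : ∀ w ∈ vS L R P Q, w ∈ sB G v k z → w ≠ y → w = u' := by
    intro w hw hwB hne
    exact hnu' w hw (cB y hg.hy w hwB (Ne.symm hne))
  have hoLR := h.oLR
  have hoP := h.oP
  have hxL := h.x_mem
  have hyR := h.y_mem
  have sL : L \ {x} ⊆ L := Set.sdiff_subset
  have sR : R \ {y} ⊆ R := Set.sdiff_subset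
  by_cases h1 : u ∈ sA G v k z <;> by_cases h2 : u' ∈ sB G v k z
  · -- both
    refine ⟨l - 1, r - 1, u, u', L \ {x}, R \ {y}, ⟨hg.cls, hg.nco, hg.f1, hg.so,
      SPr.restrict h sL sR hipu hipu' ?_, h1, h2, ?_, ?_⟩, ?_, ?_⟩
    · rw [Nat.odd_iff] at hoLR ⊢; omega
    · intro hv
      rcases mem_vS_cases hv with hv | hv | hv | hv
      · exact hg.nv (memL (sL hv))
      · exact hg.nv (memR (sR hv))
      · exact hg.nv (memP hv)
      · exact hg.nv (memQ hv)
    · intro w hw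
      refine hg.t0 w ?_
      rcases mem_vS_cases hw with hv | hv | hv | hv
      · exact memL (sL hv)
      · exact memR (sR hv)
      · exact memP hv
      · exact memQ hv
    · intro w hw hwA
      rcases mem_vS_cases hw with hv | hv | hv | hv
      · exact hA w (memL (sL hv)) hwA (fun e => hv.2 e)
      · exact hA w (memR (sR hv)) hwA (fun e => Set.disjoint_left.1 h.dLR hxL (e ▸ (sR hv)))
      · exact hA w (memP hv) hwA (fun e => Set.disjoint_left.1 h.dLP hxL (e ▸ hv))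
      · exact hA w (memQ hv) hwA (fun e => Set.disjoint_left.1 h.dLQ hxL (e ▸ hv))
    · intro w hw hwB
      rcases mem_vS_cases hw with hv | hv | hv | hv
      · exact hB w (memL (sL hv)) hwB (fun e => Set.disjoint_left.1 h.dLR (sL hv) (e ▸ hyR))
      · exact hB w (memR (sR hv)) hwB (fun e => hv.2 e)
      · exact hB w (memP hv) hwB (fun e => Set.disjoint_left.1 h.dRP hyR (e ▸ hv))
      · exact hB w (memQ hv) hwB (fun e => Set.disjoint_left.1 h.dRQ hyR (e ▸ hv))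
  · -- `u ∈ sA`, `u' ∉ sB`
    exfalso
    have hp := SPr.thru h sL (subset_refl R) hipu h.ipR
    have hev := hOGE V G v k z _ _ _ _ hg.cls hg.nco hg.f1 hg.so
      ⟨hp, h1, hg.hy, ?_, ?_⟩
    · rw [Nat.odd_iff] at hoLR hoP
      rw [Nat.even_iff] at hev
      omega
    · rintro w ((hv | hv) | hv) hwA
      · exact hA w (memL (sL hv)) hwA (fun e => hv.2 e)
      · exact hA w (memP hv) hwA (fun e => Set.disjoint_left.1 h.dLP hxL (e ▸ hv))
      · exact hA w (memR hv) hwA (fun e => Set.disjoint_left.1 h.dLR hxL (e ▸ hv))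
    · intro w hw hwB
      by_contra hne
      have hw' : w ∈ vS L R P Q := by
        rcases hw with (hv | hv) | hv
        · exact memL (sL hv)
        · exact memP hv
        · exact memR hv
      exact h2 (hB w hw' hwB hne ▸ hwB)
  · -- `u ∉ sA`, `u' ∈ sB`
    exfalso
    have hp := SPr.thru h (subset_refl L) sR h.ipL hipu'
    have hev := hOGE V G v k z _ _ _ _ hg.cls hg.nco hg.f1 hg.so
      ⟨hp, hg.hx, h2, ?_, ?_⟩
    · rw [Nat.odd_iff] at hoLR hoP
      rw [Nat.even_iff] at hev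
      omega
    · intro w hw hwA
      by_contra hne
      have hw' : w ∈ vS L R P Q := by
        rcases hw with (hv | hv) | hv
        · exact memL hv
        · exact memP hv
        · exact memR (sR hv)
      exact h1 (hA w hw' hwA hne ▸ hwA)
    · rintro w ((hv | hv) | hv) hwB
      · exact hB w (memL hv) hwB (fun e => Set.disjoint_left.1 h.dLR hv (e ▸ hyR))
      · exact hB w (memP hv) hwB (fun e => Set.disjoint_left.1 h.dRP hyR (e ▸ hv))
      · exact hB w (memR (sR hv)) hwB (fun e => hv.2 e)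
  · -- none
    refine ⟨l, r, x, y, L, R, hg, ?_, ?_⟩
    · intro w hw hwA
      by_contra hne
      exact h1 (hA w hw hwA hne ▸ hwA)
    · intro w hw hwB
      by_contra hne
      exact h2 (hB w hw hwB hne ▸ hwB)

end Pool.Agent.H93.ER2
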