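import Pool.Agent.H56.ER2.Targets
import Pool.Agent.H48.ER.Lib

/-!
# MP_816b90_co: row IC3 (change of the end `b`)
-/

set_option autoImplicit false

namespace Pool.Agent.H93.ER2

open Pool.Agent.H48.ER Pool.Agent.H52.ER2 Pool.Agent.H66.ER2 Pool.Agent.H56.ER2

theorem ic3 : T_IC3 := by
  classical
  intro V G v n z a a' b b' _ hF hL hb' hne
  obtain ⟨m, R, hO, haA, haR, haw⟩ := hL
  have hb'R : b' ∉ R := fun h => hne (hO.onlyB b' h hb')
  by_cases hc : ∃ w ∈ R, w ≠ b ∧ G.Adj b' w
  · left
    obtain ⟨g, g0, gm, gi, ga, hR⟩ := hO.ip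
    have hgR : ∀ i, i ≤ m → g i ∈ R := fun i hi => by rw [hR]; exact ⟨i, hi, rfl⟩
    have hex : ∃ i, i < m ∧ G.Adj b' (g i) := by
      obtain ⟨w, hw, hwb, hadj⟩ := hc
      rw [hR] at hw
      obtain ⟨i, hi, rfl⟩ := hw
      refine ⟨i, lt_of_le_of_ne hi ?_, hadj⟩
      rintro rfl
      exact hwb gm
    let i := Nat.find hex
    obtain ⟨him, hia⟩ := Nat.find_spec hex
    have hmin : ∀ j, j < i → ¬ G.Adj b' (g j) := by
      intro j hj e
      exact Nat.find_min hex hj ⟨by omega, e⟩
    have hsub : ∀ w ∈ {w | ∃ j, j ≤ i ∧ g j = w}, w ∈ R := by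
      rintro w ⟨j, hj, rfl⟩
      exact hgR j (le_trans hj (le_of_lt him))
    have hip : IP G i a' (g i) {w | ∃ j, j ≤ i ∧ g j = w} :=
      ⟨g, g0, rfl, fun p q hp hq e => gi p q (le_trans hp (le_of_lt him))
        (le_trans hq (le_of_lt him)) e, fun p q hp hq => ga p q (le_trans hp (le_of_lt him))
        (le_trans hq (le_of_lt him)), rfl⟩
    have hip2 : IP G (i + 1) a' b' (insert b' {w | ∃ j, j ≤ i ∧ g j = w}) := by
      refine hip.snoc (fun h => hb'R (hsub b' h)) ?_
      rintro w ⟨j, hj, rfl⟩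
      constructor
      · intro e
        rcases Nat.lt_or_ge j i with h | h
        · exact absurd e (hmin j h)
        · rw [le_antisymm hj h]
      · intro e
        rw [e]; exact hia
    refine ⟨i + 1, _, ⟨hip2, hO.inA, hb', ?_, ?_⟩, haA, ?_, ?_⟩
    · rintro w (rfl | hw) hwA
      · exact absurd rfl (hF.ab w hwA w hb').1
      · exact hO.onlyA w (hsub w hw) hwA
    · rintro w (rfl | hw) hwB
      · rfl
      · exfalso
        have e := hO.onlyB w (hsub w hw) hwB
        obtain ⟨j, hj, rfl⟩ := hw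
        have := gi j m (le_trans hj (le_of_lt him)) le_rfl (e.trans gm.symm)
        omega
    · rintro (e | h)
      · exact (hF.ab a haA b' hb').1 e
      · exact haR (hsub a h)
    · rintro w (rfl | hw)
      · constructor
        · intro e
          exact absurd e (hF.ab a haA w hb').2
        · intro e
          exact absurd e.symm (hF.ab a' hO.inA w hb').1
      · exact haw w (hsub w hw)
  · right
    refine ⟨m, R, hO, hb', hb'R, ?_⟩
    intro w hw
    constructor
    · intro e
      by_contra hwb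
      exact hc ⟨w, hw, hwb, e⟩
    · intro e
      rw [e]
      exact hF.clB b' hb' b hO.inB hne

theorem pf_IC3 (_hFST : T_FST) : T_IC3 := ic3

end Pool.Agent.H93.ER2
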